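import Mathlib

set_option autoImplicit false

open MeasureTheory Set
open scoped ENNReal

namespace Pool.Agent.H797R2.Hilbert

theorem half_add_half {x : ℝ≥0∞} : x ^ (1 / 2 : ℝ) * x ^ (1 / 2 : ℝ) = x := by
  rw [← ENNReal.rpow_add_of_nonneg _ _ (by norm_num) (by norm_num)]
  norm_num

/-- Cauchy-Schwarz on a set and on its complement. -/
theorem affinity_split {X : Type*} [MeasurableSpace X] (μ : Measure X) (a b : X → ℝ≥0∞)
    (ha : Measurable a) (hb : Measurable b) (E : Set X) (hE : MeasurableSet E) :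
    ∫⁻ x, (a x) ^ (1 / 2 : ℝ) * (b x) ^ (1 / 2 : ℝ) ∂μ ≤
      (∫⁻ x in E, a x ∂μ) ^ (1 / 2 : ℝ) * (∫⁻ x in E, b x ∂μ) ^ (1 / 2 : ℝ) +
      (∫⁻ x in Eᶜ, a x ∂μ) ^ (1 / 2 : ℝ) * (∫⁻ x in Eᶜ, b x ∂μ) ^ (1 / 2 : ℝ) := by
  rw [← lintegral_add_compl _ hE]
  apply add_le_add
  · exact ENNReal.lintegral_mul_norm_pow_le ha.aemeasurable hb.aemeasurable (by norm_num)
      (by norm_num) (by norm_num)
  · exact ENNReal.lintegral_mul_norm_pow_le ha.aemeasurable hb.aemeasurable (by norm_num)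
      (by norm_num) (by norm_num)

theorem two_point {P Q η : ℝ} (hP0 : 0 ≤ P) (hP1 : P ≤ 1) (hQ0 : 0 ≤ Q) (hQ1 : Q ≤ 1)
    (hη0 : 0 ≤ η) (hη1 : η ≤ 1)
    (h : 1 - η ≤ √P * √Q + √(1 - P) * √(1 - Q)) : (P - Q) ^ 2 ≤ 2 * η := by
  have e1 := Real.sq_sqrt hP0
  have e2 := Real.sq_sqrt hQ0
  have e3 := Real.sq_sqrt (by linarith : 0 ≤ 1 - P)
  have e4 := Real.sq_sqrt (by linarith : 0 ≤ 1 - Q)
  set p1 := √P
  set q1 := √Q
  set p2 := √(1 - P)
  set q2 := √(1 - Q)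
  have hp : p1 ^ 2 + p2 ^ 2 = 1 := by linarith
  have hq : q1 ^ 2 + q2 ^ 2 = 1 := by linarith
  have hPQ : P - Q = (p1 * q2 - q1 * p2) * (p1 * q2 + q1 * p2) := by
    calc P - Q = p1 ^ 2 * 1 - q1 ^ 2 * 1 := by rw [e1, e2]; ring
      _ = p1 ^ 2 * (q1 ^ 2 + q2 ^ 2) - q1 ^ 2 * (p1 ^ 2 + p2 ^ 2) := by rw [hp, hq]
      _ = _ := by ring
  have h1 : (p1 * q1 + p2 * q2) ^ 2 + (p1 * q2 - q1 * p2) ^ 2 = 1 := by
    calc _ = (p1 ^ 2 + p2 ^ 2) * (q1 ^ 2 + q2 ^ 2) := by ring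
      _ = 1 := by rw [hp, hq]; ring
  have h2 : (p1 * q2 + q1 * p2) ^ 2 ≤ 1 := by
    have : (p1 * q2 + q1 * p2) ^ 2 + (p1 * q1 - p2 * q2) ^ 2 = 1 := by
      calc _ = (p1 ^ 2 + p2 ^ 2) * (q1 ^ 2 + q2 ^ 2) := by ring
        _ = 1 := by rw [hp, hq]; ring
    nlinarith [sq_nonneg (p1 * q1 - p2 * q2)]
  have h3 : (1 - η) ^ 2 ≤ (p1 * q1 + p2 * q2) ^ 2 := by
    apply pow_le_pow_left₀ (by linarith) h
  have h4 : (p1 * q2 - q1 * p2) ^ 2 ≤ 2 * η := by nlinarith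
  rw [hPQ, mul_pow]
  calc (p1 * q2 - q1 * p2) ^ 2 * (p1 * q2 + q1 * p2) ^ 2
      ≤ (p1 * q2 - q1 * p2) ^ 2 * 1 := by gcongr
    _ ≤ 2 * η := by linarith

theorem toReal_half (x : ℝ≥0∞) : (x ^ (1 / 2 : ℝ)).toReal = √(x.toReal) := by
  rw [← ENNReal.toReal_rpow, Real.sqrt_eq_rpow]

/-- For probability densities with affinity at least `1 - η`, the probabilities of an event are
close. -/
theorem event_close {X : Type*} [MeasurableSpace X] (μ : Measure X) (a b : X → ℝ≥0∞)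
    (ha : Measurable a) (hb : Measurable b) (ha1 : ∫⁻ x, a x ∂μ = 1) (hb1 : ∫⁻ x, b x ∂μ = 1)
    (E : Set X) (hE : MeasurableSet E) {η : ℝ} (hη0 : 0 ≤ η) (hη1 : η ≤ 1)
    (h : ENNReal.ofReal (1 - η) ≤ ∫⁻ x, (a x) ^ (1 / 2 : ℝ) * (b x) ^ (1 / 2 : ℝ) ∂μ) :
    ((∫⁻ x in E, a x ∂μ).toReal - (∫⁻ x in E, b x ∂μ).toReal) ^ 2 ≤ 2 * η := by
  have h1 := h.trans (affinity_split μ a b ha hb E hE)
  have key : ∀ c : X → ℝ≥0∞, ∫⁻ x, c x ∂μ = 1 →
      (∫⁻ x in E, c x ∂μ) ≠ ⊤ ∧ (∫⁻ x in Eᶜ, c x ∂μ) ≠ ⊤ ∧ (∫⁻ x in E, c x ∂μ).toReal ≤ 1 ∧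
      (∫⁻ x in Eᶜ, c x ∂μ).toReal = 1 - (∫⁻ x in E, c x ∂μ).toReal := by
    intro c hc
    have hs := lintegral_add_compl (μ := μ) c hE
    rw [hc] at hs
    have t1 : (∫⁻ x in E, c x ∂μ) ≠ ⊤ := by
      intro ht; rw [ht] at hs; simp at hs
    have t2 : (∫⁻ x in Eᶜ, c x ∂μ) ≠ ⊤ := by
      intro ht; rw [ht] at hs; simp at hs
    have hr := congrArg ENNReal.toReal hs
    rw [ENNReal.toReal_add t1 t2, ENNReal.toReal_one] at hr
    have := ENNReal.toReal_nonneg (a := ∫⁻ x in Eᶜ, c x ∂μ)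
    exact ⟨t1, t2, by linarith, by linarith⟩
  obtain ⟨a1, a2, a3, a4⟩ := key a ha1
  obtain ⟨b1, b2, b3, b4⟩ := key b hb1
  apply two_point ENNReal.toReal_nonneg a3 ENNReal.toReal_nonneg b3 hη0 hη1
  rw [← a4, ← b4]
  have hf : ∀ x y : ℝ≥0∞, x ≠ ⊤ → y ≠ ⊤ → x ^ (1 / 2 : ℝ) * y ^ (1 / 2 : ℝ) ≠ ⊤ := by
    intro x y hx hy
    exact ENNReal.mul_ne_top (ENNReal.rpow_ne_top_of_nonneg (by norm_num) hx)
      (ENNReal.rpow_ne_top_of_nonneg (by norm_num) hy)
  have h2 := ENNReal.toReal_mono (ENNReal.add_ne_top.2 ⟨hf _ _ a1 b1, hf _ _ a2 b2⟩) h1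
  rw [ENNReal.toReal_ofReal (by linarith), ENNReal.toReal_add (hf _ _ a1 b1) (hf _ _ a2 b2),
    ENNReal.toReal_mul, ENNReal.toReal_mul, toReal_half, toReal_half, toReal_half, toReal_half] at h2
  exact h2

theorem affinity_le_one {X : Type*} [MeasurableSpace X] (μ : Measure X) (a b : X → ℝ≥0∞)
    (ha : Measurable a) (hb : Measurable b) (ha1 : ∫⁻ x, a x ∂μ = 1) (hb1 : ∫⁻ x, b x ∂μ = 1) :
    ∫⁻ x, (a x) ^ (1 / 2 : ℝ) * (b x) ^ (1 / 2 : ℝ) ∂μ ≤ 1 := by
  have := ENNReal.lintegral_mul_norm_pow_le (μ := μ) (p := 1 / 2) (q := 1 / 2)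
    ha.aemeasurable hb.aemeasurable (by norm_num) (by norm_num) (by norm_num)
  rw [ha1, hb1] at this
  simpa using this

theorem lintegral_shift (H : ℝ → ℝ≥0∞) (s : ℝ) : ∫⁻ t, H (s - t) = ∫⁻ t, H t :=
  lintegral_sub_left_eq_self H s

/-- The dichotomy: for probability densities `u`, `v` and a fixed bounded positive probability
density `H`, at least one of two affinities stays away from one. -/
theorem dichotomy (H : ℝ → ℝ≥0∞) (hH : Measurable H) (hH1 : ∫⁻ w, H w = 1) (hHb : ∀ w, H w ≤ 1)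
    (hHp : ∀ w, 0 < H w) : ∃ κ : ℝ, 0 < κ ∧ κ < 1 ∧ ∀ u v : ℝ → ℝ≥0∞, Measurable u → Measurable v →
      ∫⁻ s, u s = 1 → ∫⁻ t, v t = 1 →
      (∫⁻ s, u s * ∫⁻ t, (v t) ^ (1 / 2 : ℝ) * (H (s - t)) ^ (1 / 2 : ℝ) ≤ ENNReal.ofReal κ) ∨
      (∫⁻ t, v t * ∫⁻ s, (u s) ^ (1 / 2 : ℝ) * (H (s - t)) ^ (1 / 2 : ℝ) ≤ ENNReal.ofReal κ) := by
  -- the two gaps
  have hgap : ∀ a b : ℝ, a < b → 0 < (∫⁻ w in Ioc a b, H w).toReal := by
    intro a b hab
    have hle : ∫⁻ w in Ioc a b, H w ≤ 1 := by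
      rw [← hH1]; exact setLIntegral_le_lintegral _ _
    apply ENNReal.toReal_pos
    · intro h0
      rw [setLIntegral_eq_zero_iff measurableSet_Ioc hH] at h0
      have h1 : volume (Ioc a b) = 0 := by
        have h2 : ∀ᵐ x, x ∉ Ioc a b := by
          filter_upwards [h0] with x hx hx2
          exact (hHp x).ne' (hx hx2)
        rw [← nonpos_iff_eq_zero, ← (ae_iff.1 h2)]
        apply measure_mono
        intro x hx
        simpa using hx
      rw [Real.volume_Ioc, ENNReal.ofReal_eq_zero] at h1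
      linarith
    · exact ne_top_of_le_ne_top ENNReal.one_ne_top hle
  set d1 := (∫⁻ w in Ioc (0 : ℝ) (1 / 32), H w).toReal with hd1
  set d2 := (∫⁻ w in Ioc (-(1 / 32) : ℝ) 0, H w).toReal with hd2
  have hd1p : 0 < d1 := hgap _ _ (by norm_num)
  have hd2p : 0 < d2 := hgap _ _ (by norm_num)
  set d := min d1 d2 with hd
  have hdp : 0 < d := lt_min hd1p hd2p
  set η : ℝ := min (1 / 256) (d ^ 2 / 16) with hη
  have hη0 : 0 < η := lt_min (by norm_num) (by positivity)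
  have hη1 : η ≤ 1 / 256 := min_le_left _ _
  have hη2 : η ≤ d ^ 2 / 16 := min_le_right _ _
  refine ⟨max (1 - η ^ 2) (1 / 2), ?_, ?_, ?_⟩
  · exact lt_of_lt_of_le (by norm_num) (le_max_right _ _)
  · exact max_lt (by nlinarith) (by norm_num)
  intro u v hu hv hu1 hv1
  by_cases hA1 : ∫⁻ s, u s * ∫⁻ t, (v t) ^ (1 / 2 : ℝ) * (H (s - t)) ^ (1 / 2 : ℝ)
      ≤ ENNReal.ofReal (max (1 - η ^ 2) (1 / 2))
  · exact Or.inl hA1
  right
  set ρ : ℝ → ℝ≥0∞ := fun s => ∫⁻ t, (v t) ^ (1 / 2 : ℝ) * (H (s - t)) ^ (1 / 2 : ℝ) with hρ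
  have hHs : ∀ s, Measurable fun t => H (s - t) := fun s => hH.comp (measurable_const.sub measurable_id)
  have hHs1 : ∀ s, ∫⁻ t, H (s - t) = 1 := fun s => by rw [lintegral_shift, hH1]
  have hρm : Measurable ρ := by
    apply Measurable.lintegral_prod_right'
      (f := fun p : ℝ × ℝ => (v p.2) ^ (1 / 2 : ℝ) * (H (p.1 - p.2)) ^ (1 / 2 : ℝ))
    exact ((hv.comp measurable_snd).pow_const _).mul
      ((hH.comp (measurable_fst.sub measurable_snd)).pow_const _)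
  have hρ1 : ∀ s, ρ s ≤ 1 := fun s => affinity_le_one _ _ _ hv (hHs s) hv1 (hHs1 s)
  set G : Set ℝ := {s | ENNReal.ofReal (1 - η) ≤ ρ s} with hG
  have hGm : MeasurableSet G := measurableSet_le measurable_const hρm
  -- the mass of the complement
  have hsplit := lintegral_add_compl (μ := volume) u hGm
  rw [hu1] at hsplit
  have tG : (∫⁻ s in G, u s) ≠ ⊤ := by intro ht; rw [ht] at hsplit; simp at hsplit
  have tGc : (∫⁻ s in Gᶜ, u s) ≠ ⊤ := by intro ht; rw [ht] at hsplit; simp at hsplit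
  have hsr : (∫⁻ s in G, u s).toReal + (∫⁻ s in Gᶜ, u s).toReal = 1 := by
    rw [← ENNReal.toReal_add tG tGc, hsplit, ENNReal.toReal_one]
  have hb : (∫⁻ s in Gᶜ, u s).toReal < η := by
    have h1 : ∫⁻ s, u s * ρ s ≤ (∫⁻ s in G, u s) + (∫⁻ s in Gᶜ, u s) * ENNReal.ofReal (1 - η) := by
      rw [← lintegral_add_compl _ hGm]
      apply add_le_add
      · apply lintegral_mono
        intro s
        calc u s * ρ s ≤ u s * 1 := by gcongr; exact hρ1 s
          _ = u s := mul_one _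
      · rw [← lintegral_mul_const _ hu]
        apply setLIntegral_mono' hGm.compl
        intro s hs
        gcongr
        have : ¬ (ENNReal.ofReal (1 - η) ≤ ρ s) := hs
        exact (not_le.1 this).le
    have h2 : ENNReal.ofReal (1 - η ^ 2) <
        (∫⁻ s in G, u s) + (∫⁻ s in Gᶜ, u s) * ENNReal.ofReal (1 - η) := by
      refine lt_of_le_of_lt ?_ (lt_of_lt_of_le (not_le.1 hA1) h1)
      exact ENNReal.ofReal_le_ofReal (le_max_left _ _)
    have t3 : (∫⁻ s in Gᶜ, u s) * ENNReal.ofReal (1 - η) ≠ ⊤ :=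
      ENNReal.mul_ne_top tGc ENNReal.ofReal_ne_top
    have h3 := (ENNReal.toReal_lt_toReal ENNReal.ofReal_ne_top
      (ENNReal.add_ne_top.2 ⟨tG, t3⟩)).2 h2
    rw [ENNReal.toReal_ofReal (by nlinarith), ENNReal.toReal_add tG t3, ENNReal.toReal_mul,
      ENNReal.toReal_ofReal (by linarith)] at h3
    by_contra hc
    rw [not_lt] at hc
    nlinarith
  -- a good point
  have hGne : G.Nonempty := by
    by_contra hne
    rw [not_nonempty_iff_eq_empty] at hne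
    rw [hne] at hsr
    simp only [Measure.restrict_empty, lintegral_zero_measure, ENNReal.toReal_zero, zero_add] at hsr
    rw [hne] at hb
    linarith
  obtain ⟨s₀, hs₀⟩ := hGne
  -- the distribution function
  have hQ : ∀ s, ∫⁻ t in Iio s₀, H (s - t) = ∫⁻ w in Ioi (s - s₀), H w := by
    intro s
    rw [← lintegral_indicator measurableSet_Iio, ← lintegral_indicator measurableSet_Ioi,
      ← lintegral_shift ((Ioi (s - s₀)).indicator H) s]
    apply lintegral_congr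
    intro t
    simp only [indicator, mem_Iio, mem_Ioi]
    by_cases h : t < s₀
    · rw [if_pos h, if_pos (by linarith)]
    · rw [if_neg h, if_neg (by linarith)]
  have hQtop : ∀ S : Set ℝ, ∫⁻ w in S, H w ≠ ⊤ := fun S =>
    ne_top_of_le_ne_top ENNReal.one_ne_top (by rw [← hH1]; exact setLIntegral_le_lintegral _ _)
  have hclose : ∀ s ∈ G, |s - s₀| ≤ 1 / 32 := by
    intro s hs
    by_contra hc
    rw [not_le] at hc
    have e1 := event_close volume v (fun t => H (s - t)) hv (hHs s) hv1 (hHs1 s) (Iio s₀)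
      measurableSet_Iio hη0.le (by linarith) hs
    have e2 := event_close volume v (fun t => H (s₀ - t)) hv (hHs s₀) hv1 (hHs1 s₀) (Iio s₀)
      measurableSet_Iio hη0.le (by linarith) hs₀
    rw [hQ] at e1 e2
    rw [sub_self] at e2
    set P := (∫⁻ x in Iio s₀, v x).toReal
    have hdiff : d ≤ |(∫⁻ w in Ioi (s - s₀), H w).toReal - (∫⁻ w in Ioi (0 : ℝ), H w).toReal| := by
      rcases lt_abs.1 hc with h | h
      · -- s ≥ s₀ + 1/32
        have h1 : (∫⁻ w in Ioi (s - s₀), H w) + ∫⁻ w in Ioc (0 : ℝ) (1 / 32), H w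
            ≤ ∫⁻ w in Ioi (0 : ℝ), H w := by
          rw [← lintegral_union measurableSet_Ioc]
          · apply lintegral_mono_set
            rintro x (hx | hx)
            · rw [mem_Ioi] at *; linarith
            · exact hx.1
          · rw [Set.disjoint_left]
            intro x hx hx2
            rw [mem_Ioi] at hx
            linarith [hx2.2]
        have h2 := ENNReal.toReal_mono (hQtop _) h1
        rw [ENNReal.toReal_add (hQtop _) (hQtop _)] at h2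
        have h3 : d ≤ d1 := min_le_left _ _
        rw [abs_sub_comm]
        refine le_trans ?_ (le_abs_self _)
        linarith
      · have h1 : (∫⁻ w in Ioi (0 : ℝ), H w) + ∫⁻ w in Ioc (-(1 / 32) : ℝ) 0, H w
            ≤ ∫⁻ w in Ioi (s - s₀), H w := by
          rw [← lintegral_union measurableSet_Ioc]
          · apply lintegral_mono_set
            rintro x (hx | hx)
            · rw [mem_Ioi] at *; linarith
            · rw [mem_Ioi]; linarith [hx.1]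
          · rw [Set.disjoint_left]
            intro x hx hx2
            rw [mem_Ioi] at hx
            linarith [hx2.2]
        have h2 := ENNReal.toReal_mono (hQtop _) h1
        rw [ENNReal.toReal_add (hQtop _) (hQtop _)] at h2
        have h3 : d ≤ d2 := min_le_right _ _
        refine le_trans ?_ (le_abs_self _)
        linarith
    have h5 : d ^ 2 ≤ 8 * η := by
      have h6 : d ^ 2 ≤ ((∫⁻ w in Ioi (s - s₀), H w).toReal - (∫⁻ w in Ioi (0 : ℝ), H w).toReal) ^ 2 := by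
        rw [← sq_abs ((∫⁻ w in Ioi (s - s₀), H w).toReal - _)]
        exact pow_le_pow_left₀ hdp.le hdiff 2
      nlinarith [sq_nonneg ((P - (∫⁻ w in Ioi (s - s₀), H w).toReal) + (P - (∫⁻ w in Ioi (0:ℝ), H w).toReal))]
    nlinarith [sq_pos_of_pos hdp]
  -- concentration
  set J : Set ℝ := Icc (s₀ - 1 / 32) (s₀ + 1 / 32) with hJ
  have hJc : ∫⁻ s in Jᶜ, u s ≤ ENNReal.ofReal η := by
    calc ∫⁻ s in Jᶜ, u s ≤ ∫⁻ s in Gᶜ, u s := by
          apply lintegral_mono_set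
          apply compl_subset_compl.2
          intro s hs
          have := abs_le.1 (hclose s hs)
          exact ⟨by linarith [this.1], by linarith [this.2]⟩
      _ = ENNReal.ofReal (∫⁻ s in Gᶜ, u s).toReal := (ENNReal.ofReal_toReal tGc).symm
      _ ≤ ENNReal.ofReal η := ENNReal.ofReal_le_ofReal hb.le
  have hσ : ∀ t, ∫⁻ s, (u s) ^ (1 / 2 : ℝ) * (H (s - t)) ^ (1 / 2 : ℝ) ≤ ENNReal.ofReal (1 / 2) := by
    intro t
    have hHt : Measurable fun s => H (s - t) := hH.comp (measurable_id.sub measurable_const)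
    have hHt1 : ∫⁻ s, H (s - t) = 1 := by
      rw [lintegral_sub_right_eq_self H t, hH1]
    refine (affinity_split volume u (fun s => H (s - t)) hu hHt J measurableSet_Icc).trans ?_
    have a1 : ∫⁻ s in J, u s ≤ 1 := by rw [← hu1]; exact setLIntegral_le_lintegral _ _
    have a2 : ∫⁻ s in J, H (s - t) ≤ ENNReal.ofReal (1 / 16) := by
      calc ∫⁻ s in J, H (s - t) ≤ ∫⁻ _ in J, 1 := lintegral_mono fun s => hHb _
        _ = volume J := by simp
        _ = ENNReal.ofReal (1 / 16) := by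
            rw [hJ, Real.volume_Icc]; congr 1; ring
    have a3 : ∫⁻ s in Jᶜ, H (s - t) ≤ 1 := by
      rw [← hHt1]; exact setLIntegral_le_lintegral _ _
    have b1 : (ENNReal.ofReal (1 / 16)) ^ (1 / 2 : ℝ) = ENNReal.ofReal (1 / 4) := by
      rw [ENNReal.ofReal_rpow_of_nonneg (by norm_num) (by norm_num)]
      congr 1
      rw [show (1 / 16 : ℝ) = (1 / 4) ^ (2 : ℝ) by norm_num, ← Real.rpow_mul (by norm_num)]
      norm_num
    have b2 : (ENNReal.ofReal (1 / 256)) ^ (1 / 2 : ℝ) = ENNReal.ofReal (1 / 16) := by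
      rw [ENNReal.ofReal_rpow_of_nonneg (by norm_num) (by norm_num)]
      congr 1
      rw [show (1 / 256 : ℝ) = (1 / 16) ^ (2 : ℝ) by norm_num, ← Real.rpow_mul (by norm_num)]
      norm_num
    calc _ ≤ (1 : ℝ≥0∞) ^ (1 / 2 : ℝ) * (ENNReal.ofReal (1 / 16)) ^ (1 / 2 : ℝ) +
          (ENNReal.ofReal (1 / 256)) ^ (1 / 2 : ℝ) * 1 ^ (1 / 2 : ℝ) := by
          have a4 := hJc.trans (ENNReal.ofReal_le_ofReal hη1)
          gcongr
      _ = ENNReal.ofReal (1 / 4) + ENNReal.ofReal (1 / 16) := by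
          rw [b1, b2]; simp
      _ = ENNReal.ofReal (1 / 4 + 1 / 16) := (ENNReal.ofReal_add (by norm_num) (by norm_num)).symm
      _ ≤ ENNReal.ofReal (1 / 2) := ENNReal.ofReal_le_ofReal (by norm_num)
  calc ∫⁻ t, v t * ∫⁻ s, (u s) ^ (1 / 2 : ℝ) * (H (s - t)) ^ (1 / 2 : ℝ)
      ≤ ∫⁻ t, v t * ENNReal.ofReal (1 / 2) := by
        apply lintegral_mono
        intro t
        exact mul_le_mul' le_rfl (hσ t)
    _ = ENNReal.ofReal (1 / 2) := by rw [lintegral_mul_const _ hv, hv1, one_mul]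
    _ ≤ _ := ENNReal.ofReal_le_ofReal (le_max_right _ _)

end Pool.Agent.H797R2.Hilbert
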