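import Mathlib

set_option autoImplicit false

open MeasureTheory Set
open scoped ENNReal

namespace Pool.Agent.H797R2.Hilbert

/-- The density `(sin(πθ)/π) e^{θu}/(1+e^u)`. -/
noncomputable def hh (θ u : ℝ) : ℝ :=
  Real.sin (Real.pi * θ) / Real.pi * (Real.exp (θ * u) / (1 + Real.exp u))

theorem hh_cont (θ : ℝ) : Continuous (hh θ) := by
  unfold hh
  apply Continuous.mul continuous_const
  apply Continuous.div (by fun_prop) (by fun_prop)
  intro u
  positivity

theorem sin_pos {θ : ℝ} (h0 : 0 < θ) (h1 : θ < 1) : 0 < Real.sin (Real.pi * θ) := by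
  apply Real.sin_pos_of_pos_of_lt_pi
  · have := Real.pi_pos; positivity
  · nlinarith [Real.pi_pos]

theorem hh_pos {θ : ℝ} (h0 : 0 < θ) (h1 : θ < 1) (u : ℝ) : 0 < hh θ u := by
  unfold hh
  have := sin_pos h0 h1
  have := Real.pi_pos
  positivity

theorem hh_le_one {θ : ℝ} (h0 : 0 < θ) (h1 : θ < 1) (u : ℝ) : hh θ u ≤ 1 := by
  unfold hh
  have hs := sin_pos h0 h1
  have hs1 := Real.sin_le_one (Real.pi * θ)
  have hpi := Real.pi_gt_three
  have e1 : Real.sin (Real.pi * θ) / Real.pi ≤ 1 := by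
    rw [div_le_one (by linarith)]; linarith
  have e2 : Real.exp (θ * u) / (1 + Real.exp u) ≤ 1 := by
    rw [div_le_one (by positivity)]
    rcases le_total u 0 with hu | hu
    · have : Real.exp (θ * u) ≤ 1 := by
        rw [Real.exp_le_one_iff]; nlinarith
      have := Real.exp_pos u
      linarith
    · have : Real.exp (θ * u) ≤ Real.exp u := by
        apply Real.exp_le_exp.2; nlinarith
      linarith
  have e3 : 0 ≤ Real.exp (θ * u) / (1 + Real.exp u) := by positivity
  have e4 : 0 ≤ Real.sin (Real.pi * θ) / Real.pi := by positivity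
  nlinarith

/-- The logistic function. -/
noncomputable def lg (u : ℝ) : ℝ := Real.exp u / (1 + Real.exp u)

theorem lg_deriv (u : ℝ) : HasDerivAt lg (Real.exp u / (1 + Real.exp u) ^ 2) u := by
  have h1 : HasDerivAt Real.exp (Real.exp u) u := Real.hasDerivAt_exp u
  have h2 : HasDerivAt (fun u => 1 + Real.exp u) (Real.exp u) u := h1.const_add 1
  have h3 := h1.div h2 (by positivity)
  refine (h3.congr_deriv ?_)
  ring

theorem lg_mem (u : ℝ) : lg u ∈ Ioo (0 : ℝ) 1 := by
  unfold lg
  constructor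
  · positivity
  · rw [div_lt_one (by positivity)]; linarith

theorem lg_inj : Function.Injective lg := by
  intro a b h
  unfold lg at h
  have h1 : (0 : ℝ) < 1 + Real.exp a := by positivity
  have h2 : (0 : ℝ) < 1 + Real.exp b := by positivity
  rw [div_eq_div_iff h1.ne' h2.ne'] at h
  have : Real.exp a = Real.exp b := by linarith
  exact Real.exp_injective this

theorem lg_image : lg '' univ = Ioo (0 : ℝ) 1 := by
  ext x
  constructor
  · rintro ⟨u, -, rfl⟩; exact lg_mem u
  · rintro ⟨h0, h1⟩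
    refine ⟨Real.log (x / (1 - x)), mem_univ _, ?_⟩
    unfold lg
    have h2 : 0 < 1 - x := by linarith
    rw [Real.exp_log (by positivity)]
    field_simp
    ring

theorem lintegral_hh {θ : ℝ} (h0 : 0 < θ) (h1 : θ < 1) :
    ∫⁻ u, ENNReal.ofReal (hh θ u) = 1 := by
  have hb := ProbabilityTheory.lintegral_betaPDF_eq_one h0 (by linarith : 0 < 1 - θ)
  rw [ProbabilityTheory.lintegral_betaPDF, ← lg_image,
    lintegral_image_eq_lintegral_abs_deriv_mul MeasurableSet.univ
      (fun x _ => (lg_deriv x).hasDerivWithinAt) lg_inj.injOn] at hb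
  rw [← hb, Measure.restrict_univ]
  apply lintegral_congr
  intro u
  rw [← ENNReal.ofReal_mul (abs_nonneg _)]
  congr 1
  have hE : 0 < Real.exp u := Real.exp_pos u
  have hE1 : 0 < 1 + Real.exp u := by positivity
  have hbeta : ProbabilityTheory.beta θ (1 - θ) = Real.pi / Real.sin (Real.pi * θ) := by
    unfold ProbabilityTheory.beta
    rw [Real.Gamma_mul_Gamma_one_sub]
    simp
  rw [hbeta, abs_of_pos (by positivity)]
  unfold hh lg
  have e1 : (1 : ℝ) - Real.exp u / (1 + Real.exp u) = 1 / (1 + Real.exp u) := by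
    field_simp; ring
  rw [e1]
  have e2 : (Real.exp u / (1 + Real.exp u)) ^ (θ - 1) = Real.exp ((θ - 1) * u) * (1 + Real.exp u) ^ (1 - θ) := by
    rw [Real.div_rpow hE.le hE1.le, ← Real.exp_mul, div_eq_mul_inv, ← Real.rpow_neg hE1.le]
    congr 2 <;> ring
  have e3 : (1 / (1 + Real.exp u)) ^ (1 - θ - 1) = (1 + Real.exp u) ^ θ := by
    rw [one_div, Real.inv_rpow hE1.le, ← Real.rpow_neg hE1.le]
    congr 1; ring
  rw [e2, e3]
  have e4 : (1 + Real.exp u) ^ (1 - θ) * (1 + Real.exp u) ^ θ = 1 + Real.exp u := by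
    rw [← Real.rpow_add hE1]; simp
  have e5 : Real.exp u * Real.exp ((θ - 1) * u) = Real.exp (θ * u) := by
    rw [← Real.exp_add]; congr 1; ring
  have hs := sin_pos h0 h1
  have hpi := Real.pi_pos
  calc Real.sin (Real.pi * θ) / Real.pi * (Real.exp (θ * u) / (1 + Real.exp u))
      = Real.sin (Real.pi * θ) / Real.pi * (Real.exp (θ * u) * (1 + Real.exp u) / (1 + Real.exp u) ^ 2) := by
        field_simp
    _ = Real.sin (Real.pi * θ) / Real.pi * ((Real.exp u * Real.exp ((θ - 1) * u)) *
          ((1 + Real.exp u) ^ (1 - θ) * (1 + Real.exp u) ^ θ) / (1 + Real.exp u) ^ 2) := by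
        rw [e4, e5]
    _ = _ := by
        rw [one_div_div]
        ring

end Pool.Agent.H797R2.Hilbert
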