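import Mathlib
import Pool.Agent.H797R2.Hilbert.Kernel
import Pool.Agent.H797R2.Hilbert.Dichotomy

set_option autoImplicit false
set_option linter.unusedSectionVars false

open MeasureTheory Set
open scoped ENNReal

namespace Pool.Agent.H797R2.Hilbert

/-- Hölder's inequality with a gain. -/
theorem holder_gain {X : Type*} [MeasurableSpace X] (μ : Measure X) (α β γ : X → ℝ≥0∞)
    (hα : Measurable α) (hβ : Measurable β) (hγ : Measurable γ)
    (hα1 : ∫⁻ x, α x ∂μ = 1) (hβ1 : ∫⁻ x, β x ∂μ = 1) (hγ1 : ∫⁻ x, γ x ∂μ = 1)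
    (a b c : ℝ) (ha : 0 ≤ a) (hb : 0 ≤ b) (hc : 0 ≤ c) (habc : a + b + c = 1) :
    ∫⁻ x, (α x) ^ a * (β x) ^ b * (γ x) ^ c ∂μ ≤
      (∫⁻ x, (α x) ^ (1 / 2 : ℝ) * (β x) ^ (1 / 2 : ℝ) ∂μ) ^ (2 * min a b) := by
  set m := min a b with hm
  have hm0 : 0 ≤ m := le_min ha hb
  have hma : m ≤ a := min_le_left _ _
  have hmb : m ≤ b := min_le_right _ _
  set δ : X → ℝ≥0∞ := fun x => (α x) ^ (1 / 2 : ℝ) * (β x) ^ (1 / 2 : ℝ) with hδ
  have hδm : Measurable δ := (hα.pow_const _).mul (hβ.pow_const _)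
  let f : Fin 4 → X → ℝ≥0∞ := ![δ, α, β, γ]
  let w : Fin 4 → ℝ := ![2 * m, a - m, b - m, c]
  have h := ENNReal.lintegral_prod_norm_pow_le (μ := μ) (Finset.univ : Finset (Fin 4)) (f := f)
    (by intro i _; fin_cases i <;> simp [f, hδm.aemeasurable, hα.aemeasurable, hβ.aemeasurable, hγ.aemeasurable])
    (p := w) (by simp [Fin.sum_univ_four, w]; linarith)
    (by intro i _; fin_cases i <;> simp [w] <;> linarith)
  simp only [Fin.prod_univ_four] at h
  simp only [f, w, Matrix.cons_val_zero, Matrix.cons_val_one, Matrix.cons_val] at h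
  rw [hα1, hβ1, hγ1] at h
  simp only [ENNReal.one_rpow, mul_one] at h
  refine le_trans (le_of_eq ?_) h
  apply lintegral_congr
  intro x
  have e1 : (δ x) ^ (2 * m) = (α x) ^ m * (β x) ^ m := by
    rw [hδ, ENNReal.mul_rpow_of_nonneg _ _ (by positivity), ← ENNReal.rpow_mul, ← ENNReal.rpow_mul]
    congr 2 <;> ring
  rw [e1]
  have e2 : (α x) ^ a = (α x) ^ m * (α x) ^ (a - m) := by
    rw [← ENNReal.rpow_add_of_nonneg _ _ hm0 (by linarith)]; congr 1; ring
  have e3 : (β x) ^ b = (β x) ^ m * (β x) ^ (b - m) := by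
    rw [← ENNReal.rpow_add_of_nonneg _ _ hm0 (by linarith)]; congr 1; ring
  rw [e2, e3]
  ring

/-- The exponent `λ`. -/
noncomputable def lam (p q : ℝ) : ℝ := 2 - 1 / p - 1 / q

/-- The parameter of the density. -/
noncomputable def th (p q : ℝ) : ℝ := (1 - 1 / p) / lam p q

section
variable {p q : ℝ} (hp : 1 < p) (hq : 1 < q) (hpq : 1 < 1 / p + 1 / q)
include hp hq hpq

theorem inv_facts : 0 < 1 / p ∧ 1 / p < 1 ∧ 0 < 1 / q ∧ 1 / q < 1 := by
  refine ⟨by positivity, ?_, by positivity, ?_⟩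
  · rw [div_lt_one (by linarith)]; exact hp
  · rw [div_lt_one (by linarith)]; exact hq

theorem lam_pos : 0 < lam p q := by
  obtain ⟨h1, h2, h3, h4⟩ := inv_facts hp hq hpq
  unfold lam; linarith

theorem lam_lt : lam p q < 1 := by
  unfold lam; linarith

theorem th_pos : 0 < th p q := by
  obtain ⟨h1, h2, h3, h4⟩ := inv_facts hp hq hpq
  exact div_pos (by linarith) (lam_pos hp hq hpq)

theorem th_lt : th p q < 1 := by
  obtain ⟨h1, h2, h3, h4⟩ := inv_facts hp hq hpq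
  unfold th
  rw [div_lt_one (lam_pos hp hq hpq)]
  unfold lam; linarith

/-- The normalized inequality. -/
theorem normalized : ∃ κ : ℝ, 0 < κ ∧ κ < 1 ∧ ∀ u v : ℝ → ℝ≥0∞, Measurable u → Measurable v →
    ∫⁻ s, u s = 1 → ∫⁻ t, v t = 1 →
    ∫⁻ s, ∫⁻ t, (u s) ^ (1 / p) * (v t) ^ (1 / q) * (ENNReal.ofReal (hh (th p q) (s - t))) ^ (lam p q)
      ≤ ENNReal.ofReal κ := by
  obtain ⟨i1, i2, i3, i4⟩ := inv_facts hp hq hpq
  have hl0 := lam_pos hp hq hpq
  have hl1 := lam_lt hp hq hpq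
  have ht0 := th_pos hp hq hpq
  have ht1 := th_lt hp hq hpq
  set θ := th p q with hθ
  set H : ℝ → ℝ≥0∞ := fun w => ENNReal.ofReal (hh θ w) with hH
  have hHm : Measurable H := (hh_cont θ).measurable.ennreal_ofReal
  obtain ⟨κ, hκ0, hκ1, hκ⟩ := dichotomy H hHm (lintegral_hh ht0 ht1)
    (fun w => by
      rw [hH]; simp only
      rw [← ENNReal.ofReal_one]
      exact ENNReal.ofReal_le_ofReal (hh_le_one ht0 ht1 w))
    (fun w => ENNReal.ofReal_pos.2 (hh_pos ht0 ht1 w))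
  set a := 1 - lam p q with ha
  set b := 1 - 1 / q with hb
  set c := 1 - 1 / p with hc
  have ha0 : 0 < a := by linarith
  have hb0 : 0 < b := by linarith
  have hc0 : 0 < c := by linarith
  have hbc : b + c = lam p q := by rw [hb, hc]; unfold lam; ring
  have habc : a + b + c = 1 := by linarith
  have hacb : a + c + b = 1 := by linarith
  have hm1 : 0 < 2 * min a b := by have := lt_min ha0 hb0; linarith
  have hm2 : 0 < 2 * min a c := by have := lt_min ha0 hc0; linarith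
  refine ⟨max (κ ^ (2 * min a b)) (κ ^ (2 * min a c)), ?_, ?_, ?_⟩
  · exact lt_of_lt_of_le (Real.rpow_pos_of_pos hκ0 _) (le_max_left _ _)
  · exact max_lt (Real.rpow_lt_one hκ0.le hκ1 hm1) (Real.rpow_lt_one hκ0.le hκ1 hm2)
  intro u v hu hv hu1 hv1
  set α : ℝ × ℝ → ℝ≥0∞ := fun z => u z.1 * v z.2 with hα
  set β : ℝ × ℝ → ℝ≥0∞ := fun z => u z.1 * H (z.1 - z.2) with hβ
  set γ : ℝ × ℝ → ℝ≥0∞ := fun z => v z.2 * H (z.1 - z.2) with hγ
  have hdiff : Measurable fun z : ℝ × ℝ => H (z.1 - z.2) := hHm.comp (measurable_fst.sub measurable_snd)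
  have mα : Measurable α := (hu.comp measurable_fst).mul (hv.comp measurable_snd)
  have mβ : Measurable β := (hu.comp measurable_fst).mul hdiff
  have mγ : Measurable γ := (hv.comp measurable_snd).mul hdiff
  have hH1 : ∫⁻ w, H w = 1 := lintegral_hh ht0 ht1
  have mHs : ∀ s : ℝ, Measurable fun t => H (s - t) := fun s =>
    hHm.comp (measurable_const.sub measurable_id)
  have mHt : ∀ t : ℝ, Measurable fun s => H (s - t) := fun t =>
    hHm.comp (measurable_id.sub measurable_const)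
  have hs1 : ∀ s, ∫⁻ t, H (s - t) = 1 := fun s => by rw [lintegral_shift, hH1]
  have ht1' : ∀ t, ∫⁻ s, H (s - t) = 1 := fun t => by
    rw [lintegral_sub_right_eq_self H t, hH1]
  have iα : ∫⁻ z, α z ∂(volume.prod volume) = 1 := by
    rw [hα, lintegral_prod_mul hu.aemeasurable hv.aemeasurable, hu1, hv1, one_mul]
  have iβ : ∫⁻ z, β z ∂(volume.prod volume) = 1 := by
    rw [lintegral_prod _ mβ.aemeasurable]
    have : ∀ s, ∫⁻ t, β (s, t) = u s := by
      intro s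
      rw [hβ]
      simp only
      rw [lintegral_const_mul _ (mHs s), hs1, mul_one]
    simp only [this, hu1]
  have iγ : ∫⁻ z, γ z ∂(volume.prod volume) = 1 := by
    rw [lintegral_prod_symm _ mγ.aemeasurable]
    have : ∀ t, ∫⁻ s, γ (s, t) = v t := by
      intro t
      rw [hγ]
      simp only
      rw [lintegral_const_mul _ (mHt t), ht1', mul_one]
    simp only [this, hv1]
  have hint : ∫⁻ s, ∫⁻ t, (u s) ^ (1 / p) * (v t) ^ (1 / q) * (H (s - t)) ^ (lam p q)
      = ∫⁻ z, (α z) ^ a * (β z) ^ b * (γ z) ^ c ∂(volume.prod volume) := by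
    have mm : Measurable fun z => (α z) ^ a * (β z) ^ b * (γ z) ^ c :=
      ((mα.pow_const _).mul (mβ.pow_const _)).mul (mγ.pow_const _)
    rw [lintegral_prod _ mm.aemeasurable]
    apply lintegral_congr; intro s
    apply lintegral_congr; intro t
    simp only [hα, hβ, hγ]
    rw [ENNReal.mul_rpow_of_nonneg _ _ ha0.le, ENNReal.mul_rpow_of_nonneg _ _ hb0.le,
      ENNReal.mul_rpow_of_nonneg _ _ hc0.le]
    have e1 : (u s) ^ (1 / p) = (u s) ^ a * (u s) ^ b := by
      rw [← ENNReal.rpow_add_of_nonneg _ _ ha0.le hb0.le]; congr 1; linarith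
    have e2 : (v t) ^ (1 / q) = (v t) ^ a * (v t) ^ c := by
      rw [← ENNReal.rpow_add_of_nonneg _ _ ha0.le hc0.le]; congr 1; linarith
    have e3 : (H (s - t)) ^ (lam p q) = (H (s - t)) ^ b * (H (s - t)) ^ c := by
      rw [← ENNReal.rpow_add_of_nonneg _ _ hb0.le hc0.le, hbc]
    rw [e1, e2, e3]; ring
  change ∫⁻ s, ∫⁻ t, (u s) ^ (1 / p) * (v t) ^ (1 / q) * (H (s - t)) ^ (lam p q) ≤ _
  rw [hint]
  rcases hκ u v hu hv hu1 hv1 with h | h
  · have h1 := holder_gain (volume.prod volume) α β γ mα mβ mγ iα iβ iγ a b c ha0.le hb0.le hc0.le habc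
    refine h1.trans ?_
    have h2 : ∫⁻ z, (α z) ^ (1 / 2 : ℝ) * (β z) ^ (1 / 2 : ℝ) ∂(volume.prod volume)
        = ∫⁻ s, u s * ∫⁻ t, (v t) ^ (1 / 2 : ℝ) * (H (s - t)) ^ (1 / 2 : ℝ) := by
      have mm : Measurable fun z => (α z) ^ (1 / 2 : ℝ) * (β z) ^ (1 / 2 : ℝ) :=
        (mα.pow_const _).mul (mβ.pow_const _)
      rw [lintegral_prod _ mm.aemeasurable]
      apply lintegral_congr; intro s
      have mm2 : Measurable fun t => (v t) ^ (1 / 2 : ℝ) * (H (s - t)) ^ (1 / 2 : ℝ) :=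
        (hv.pow_const _).mul ((mHs s).pow_const _)
      rw [← lintegral_const_mul _ mm2]
      apply lintegral_congr; intro t
      simp only [hα, hβ]
      rw [ENNReal.mul_rpow_of_nonneg _ _ (by norm_num), ENNReal.mul_rpow_of_nonneg _ _ (by norm_num)]
      conv_rhs => rw [← half_add_half (x := u s)]
      ring
    rw [h2]
    calc _ ≤ (ENNReal.ofReal κ) ^ (2 * min a b) := by gcongr
      _ = ENNReal.ofReal (κ ^ (2 * min a b)) := ENNReal.ofReal_rpow_of_nonneg hκ0.le hm1.le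
      _ ≤ _ := ENNReal.ofReal_le_ofReal (le_max_left _ _)
  · have h0 : ∫⁻ z, (α z) ^ a * (β z) ^ b * (γ z) ^ c ∂(volume.prod volume)
        = ∫⁻ z, (α z) ^ a * (γ z) ^ c * (β z) ^ b ∂(volume.prod volume) := by
      apply lintegral_congr; intro z; ring
    rw [h0]
    have h1 := holder_gain (volume.prod volume) α γ β mα mγ mβ iα iγ iβ a c b ha0.le hc0.le hb0.le hacb
    refine h1.trans ?_
    have h2 : ∫⁻ z, (α z) ^ (1 / 2 : ℝ) * (γ z) ^ (1 / 2 : ℝ) ∂(volume.prod volume)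
        = ∫⁻ t, v t * ∫⁻ s, (u s) ^ (1 / 2 : ℝ) * (H (s - t)) ^ (1 / 2 : ℝ) := by
      have mm : Measurable fun z => (α z) ^ (1 / 2 : ℝ) * (γ z) ^ (1 / 2 : ℝ) :=
        (mα.pow_const _).mul (mγ.pow_const _)
      rw [lintegral_prod_symm _ mm.aemeasurable]
      apply lintegral_congr; intro t
      have mm2 : Measurable fun s => (u s) ^ (1 / 2 : ℝ) * (H (s - t)) ^ (1 / 2 : ℝ) :=
        (hu.pow_const _).mul ((mHt t).pow_const _)
      rw [← lintegral_const_mul _ mm2]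
      apply lintegral_congr; intro s
      simp only [hα, hγ]
      rw [ENNReal.mul_rpow_of_nonneg _ _ (by norm_num), ENNReal.mul_rpow_of_nonneg _ _ (by norm_num)]
      conv_rhs => rw [← half_add_half (x := v t)]
      ring
    rw [h2]
    calc _ ≤ (ENNReal.ofReal κ) ^ (2 * min a c) := by gcongr
      _ = ENNReal.ofReal (κ ^ (2 * min a c)) := ENNReal.ofReal_rpow_of_nonneg hκ0.le hm2.le
      _ ≤ _ := ENNReal.ofReal_le_ofReal (le_max_right _ _)

/-- The inequality on the line with a constant smaller than one. -/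
theorem line : ∃ κ : ℝ, 0 < κ ∧ κ < 1 ∧ ∀ F G : ℝ → ℝ≥0∞, Measurable F → Measurable G →
    ∫⁻ s, ∫⁻ t, F s * G t * (ENNReal.ofReal (hh (th p q) (s - t))) ^ (lam p q)
      ≤ ENNReal.ofReal κ * (∫⁻ s, F s ^ p) ^ (1 / p) * (∫⁻ t, G t ^ q) ^ (1 / q) := by
  obtain ⟨κ, hκ0, hκ1, hκ⟩ := normalized hp hq hpq
  obtain ⟨i1, i2, i3, i4⟩ := inv_facts hp hq hpq
  have hp0 : 0 < p := by linarith
  have hq0 : 0 < q := by linarith
  refine ⟨κ, hκ0, hκ1, ?_⟩
  intro F G hF hG
  set A := ∫⁻ s, F s ^ p with hA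
  set B := ∫⁻ t, G t ^ q with hB
  have hFz : A = 0 → ∀ᵐ s, F s = 0 := by
    intro h
    rw [hA, lintegral_eq_zero_iff (hF.pow_const _)] at h
    filter_upwards [h] with s hs
    simpa [ENNReal.rpow_eq_zero_iff, hp0, hp0.not_gt] using hs
  have hGz : B = 0 → ∀ᵐ t, G t = 0 := by
    intro h
    rw [hB, lintegral_eq_zero_iff (hG.pow_const _)] at h
    filter_upwards [h] with s hs
    simpa [ENNReal.rpow_eq_zero_iff, hq0, hq0.not_gt] using hs
  by_cases hA0 : A = 0
  · have : ∫⁻ s, ∫⁻ t, F s * G t * (ENNReal.ofReal (hh (th p q) (s - t))) ^ (lam p q) = 0 := by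
      rw [← lintegral_zero (α := ℝ) (μ := volume)]
      apply lintegral_congr_ae
      filter_upwards [hFz hA0] with s hs
      simp [hs]
    rw [this]; exact zero_le
  by_cases hB0 : B = 0
  · have : ∫⁻ s, ∫⁻ t, F s * G t * (ENNReal.ofReal (hh (th p q) (s - t))) ^ (lam p q) = 0 := by
      rw [← lintegral_zero (α := ℝ) (μ := volume)]
      apply lintegral_congr
      intro s
      rw [← lintegral_zero (α := ℝ) (μ := volume)]
      apply lintegral_congr_ae
      filter_upwards [hGz hB0] with t ht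
      simp [ht]
    rw [this]; exact zero_le
  have hκne : ENNReal.ofReal κ ≠ 0 := (ENNReal.ofReal_pos.2 hκ0).ne'
  by_cases hAt : A = ⊤
  · rw [hAt, ENNReal.top_rpow_of_pos i1, ENNReal.mul_top hκne, ENNReal.top_mul]
    · exact le_top
    · exact (ENNReal.rpow_pos_of_nonneg (pos_iff_ne_zero.2 hB0) i3.le).ne'
  by_cases hBt : B = ⊤
  · rw [hBt, ENNReal.top_rpow_of_pos i3, ENNReal.mul_top]
    · exact le_top
    · exact mul_ne_zero hκne (ENNReal.rpow_pos_of_nonneg (pos_iff_ne_zero.2 hA0) i1.le).ne'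
  -- normalization
  set u : ℝ → ℝ≥0∞ := fun s => A⁻¹ * F s ^ p with hu
  set v : ℝ → ℝ≥0∞ := fun t => B⁻¹ * G t ^ q with hv
  have hum : Measurable u := (hF.pow_const _).const_mul _
  have hvm : Measurable v := (hG.pow_const _).const_mul _
  have hu1 : ∫⁻ s, u s = 1 := by
    rw [hu, lintegral_const_mul _ (hF.pow_const _), ← hA, ENNReal.inv_mul_cancel hA0 hAt]
  have hv1 : ∫⁻ t, v t = 1 := by
    rw [hv, lintegral_const_mul _ (hG.pow_const _), ← hB, ENNReal.inv_mul_cancel hB0 hBt]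
  have hFu : ∀ s, F s = A ^ (1 / p) * (u s) ^ (1 / p) := by
    intro s
    rw [← ENNReal.mul_rpow_of_nonneg _ _ i1.le, hu]
    simp only
    rw [← mul_assoc, ENNReal.mul_inv_cancel hA0 hAt, one_mul, ← ENNReal.rpow_mul,
      mul_one_div_cancel hp0.ne', ENNReal.rpow_one]
  have hGv : ∀ t, G t = B ^ (1 / q) * (v t) ^ (1 / q) := by
    intro t
    rw [← ENNReal.mul_rpow_of_nonneg _ _ i3.le, hv]
    simp only
    rw [← mul_assoc, ENNReal.mul_inv_cancel hB0 hBt, one_mul, ← ENNReal.rpow_mul,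
      mul_one_div_cancel hq0.ne', ENNReal.rpow_one]
  have hAf : A ^ (1 / p) ≠ ⊤ := ENNReal.rpow_ne_top_of_nonneg i1.le hAt
  have hBf : B ^ (1 / q) ≠ ⊤ := ENNReal.rpow_ne_top_of_nonneg i3.le hBt
  calc ∫⁻ s, ∫⁻ t, F s * G t * (ENNReal.ofReal (hh (th p q) (s - t))) ^ (lam p q)
      = ∫⁻ s, (A ^ (1 / p) * B ^ (1 / q)) * ∫⁻ t, (u s) ^ (1 / p) * (v t) ^ (1 / q) *
          (ENNReal.ofReal (hh (th p q) (s - t))) ^ (lam p q) := by
        apply lintegral_congr; intro s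
        rw [← lintegral_const_mul' _ _ (ENNReal.mul_ne_top hAf hBf)]
        apply lintegral_congr; intro t
        rw [hFu s, hGv t]; ring
    _ = (A ^ (1 / p) * B ^ (1 / q)) * ∫⁻ s, ∫⁻ t, (u s) ^ (1 / p) * (v t) ^ (1 / q) *
          (ENNReal.ofReal (hh (th p q) (s - t))) ^ (lam p q) :=
        lintegral_const_mul' _ _ (ENNReal.mul_ne_top hAf hBf)
    _ ≤ (A ^ (1 / p) * B ^ (1 / q)) * ENNReal.ofReal κ := by
        gcongr
        exact hκ u v hum hvm hu1 hv1
    _ = _ := by ring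

end

end Pool.Agent.H797R2.Hilbert
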