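import Mathlib
import Pool.Agent.H797R2.Hilbert.Main

set_option autoImplicit false
set_option linter.unusedSectionVars false

open MeasureTheory Set
open scoped ENNReal NNReal

namespace Pool.Agent.H797R2.Hilbert

/-- The constant `K(p,q) = π^λ csc^λ(π(q-1)/(λq))`. -/
noncomputable def KK (p q : ℝ) : ℝ :=
  Real.pi ^ (lam p q) * (1 / Real.sin (Real.pi * (q - 1) / (lam p q * q))) ^ (lam p q)

/-- The integral inequality with constant `C`. -/
def IntegralIneq (p q C : ℝ) : Prop :=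
  ∀ f g : ℝ → ℝ≥0, Measurable f → Measurable g →
    ∫⁻ x in Ioi (0 : ℝ), ∫⁻ y in Ioi (0 : ℝ),
        (f x : ℝ≥0∞) * (g y : ℝ≥0∞) * ENNReal.ofReal ((x + y) ^ (-(lam p q)))
      ≤ ENNReal.ofReal C * (∫⁻ x in Ioi (0 : ℝ), (f x : ℝ≥0∞) ^ p) ^ (1 / p) *
        (∫⁻ y in Ioi (0 : ℝ), (g y : ℝ≥0∞) ^ q) ^ (1 / q)

/-- The series inequality with constant `C` (the index `m : ℕ` stands for `m + 1 ≥ 1`). -/
def SeriesIneq (p q C : ℝ) : Prop :=
  ∀ a b : ℕ → ℝ≥0,
    ∑' m : ℕ, ∑' n : ℕ, (a m : ℝ≥0∞) * (b n : ℝ≥0∞) *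
        ENNReal.ofReal ((((m : ℝ) + 1) + ((n : ℝ) + 1)) ^ (-(lam p q)))
      ≤ ENNReal.ofReal C * (∑' m : ℕ, (a m : ℝ≥0∞) ^ p) ^ (1 / p) *
        (∑' n : ℕ, (b n : ℝ≥0∞) ^ q) ^ (1 / q)

theorem exp_image : Real.exp '' univ = Ioi (0 : ℝ) := by
  rw [image_univ, Real.range_exp]

theorem change_var (φ : ℝ → ℝ≥0∞) :
    ∫⁻ x in Ioi (0 : ℝ), φ x = ∫⁻ s, ENNReal.ofReal (Real.exp s) * φ (Real.exp s) := by
  rw [← exp_image, lintegral_image_eq_lintegral_abs_deriv_mul MeasurableSet.univ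
    (fun x _ => (Real.hasDerivAt_exp x).hasDerivWithinAt) Real.exp_injective.injOn,
    Measure.restrict_univ]
  apply lintegral_congr
  intro s
  rw [abs_of_pos (Real.exp_pos s)]

section
variable {p q : ℝ} (hp : 1 < p) (hq : 1 < q) (hpq : 1 < 1 / p + 1 / q)
include hp hq hpq

theorem KK_eq : KK p q = (Real.pi / Real.sin (Real.pi * th p q)) ^ (lam p q) := by
  have hl := lam_pos hp hq hpq
  have h0 := th_pos hp hq hpq
  have h1 := th_lt hp hq hpq
  have hs := sin_pos h0 h1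
  have hpi := Real.pi_pos
  unfold KK
  have e1 : Real.pi * (q - 1) / (lam p q * q) = Real.pi - Real.pi * th p q := by
    unfold th
    have hq0 : q ≠ 0 := by linarith
    have hp0 : p ≠ 0 := by linarith
    field_simp
    unfold lam
    field_simp
    ring
  rw [e1, Real.sin_pi_sub, ← Real.mul_rpow hpi.le (by positivity)]
  congr 1
  ring

theorem kernel_eq (s t : ℝ) :
    Real.exp s * Real.exp t * (Real.exp s + Real.exp t) ^ (-(lam p q))
      = Real.exp (s / p) * Real.exp (t / q) * (KK p q * (hh (th p q) (s - t)) ^ (lam p q)) := by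
  have hl := lam_pos hp hq hpq
  have h0 := th_pos hp hq hpq
  have h1 := th_lt hp hq hpq
  have hs := sin_pos h0 h1
  have hpi := Real.pi_pos
  have hthl : th p q * lam p q = 1 - 1 / p := by
    unfold th; field_simp
  rw [KK_eq hp hq hpq]
  unfold hh
  have hE : 0 < 1 + Real.exp (s - t) := by positivity
  have e1 : Real.exp s + Real.exp t = Real.exp t * (1 + Real.exp (s - t)) := by
    rw [mul_add, ← Real.exp_add]; ring_nf
  rw [e1, Real.mul_rpow (Real.exp_pos t).le hE.le, Real.mul_rpow (by positivity) (by positivity),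
    Real.div_rpow (Real.exp_pos _).le hE.le, Real.rpow_neg hE.le]
  have e2 : (Real.pi / Real.sin (Real.pi * th p q)) ^ (lam p q) *
      (Real.sin (Real.pi * th p q) / Real.pi) ^ (lam p q) = 1 := by
    rw [← Real.mul_rpow (by positivity) (by positivity)]
    have : Real.pi / Real.sin (Real.pi * th p q) * (Real.sin (Real.pi * th p q) / Real.pi) = 1 := by
      field_simp
    rw [this, Real.one_rpow]
  have e3 : (Real.exp (th p q * (s - t))) ^ (lam p q) = Real.exp ((1 - 1 / p) * (s - t)) := by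
    rw [← Real.exp_mul, ← hthl]; congr 1; ring
  have e4 : (Real.exp t) ^ (-(lam p q)) = Real.exp (-(lam p q) * t) := by
    rw [← Real.exp_mul]; congr 1; ring
  rw [e3, e4]
  have e5 : Real.exp s * Real.exp t * Real.exp (-(lam p q) * t)
      = Real.exp (s / p) * Real.exp (t / q) * Real.exp ((1 - 1 / p) * (s - t)) := by
    rw [← Real.exp_add, ← Real.exp_add, ← Real.exp_add, ← Real.exp_add]
    congr 1
    unfold lam
    ring
  calc Real.exp s * Real.exp t * (Real.exp (-(lam p q) * t) * ((1 + Real.exp (s - t)) ^ (lam p q))⁻¹)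
      = (Real.exp s * Real.exp t * Real.exp (-(lam p q) * t)) * ((1 + Real.exp (s - t)) ^ (lam p q))⁻¹ := by
        ring
    _ = (Real.exp (s / p) * Real.exp (t / q) * Real.exp ((1 - 1 / p) * (s - t))) * 1 *
          ((1 + Real.exp (s - t)) ^ (lam p q))⁻¹ := by rw [e5, mul_one]
    _ = _ := by rw [← e2]; ring

theorem KK_pos : 0 < KK p q := by
  rw [KK_eq hp hq hpq]
  have hs := sin_pos (th_pos hp hq hpq) (th_lt hp hq hpq)
  have := Real.pi_pos
  positivity

theorem integral_ineq : ∃ C : ℝ, 0 < C ∧ C < KK p q ∧ ∀ f g : ℝ → ℝ≥0∞, Measurable f → Measurable g →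
    ∫⁻ x in Ioi (0 : ℝ), ∫⁻ y in Ioi (0 : ℝ), f x * g y * ENNReal.ofReal ((x + y) ^ (-(lam p q)))
      ≤ ENNReal.ofReal C * (∫⁻ x in Ioi (0 : ℝ), f x ^ p) ^ (1 / p) *
        (∫⁻ y in Ioi (0 : ℝ), g y ^ q) ^ (1 / q) := by
  obtain ⟨κ, hκ0, hκ1, hκ⟩ := line hp hq hpq
  have hK := KK_pos hp hq hpq
  have hl := lam_pos hp hq hpq
  have h0 := th_pos hp hq hpq
  have h1 := th_lt hp hq hpq
  refine ⟨KK p q * κ, by positivity, by nlinarith, ?_⟩
  intro f g hf hg
  have hp0 : 0 < p := by linarith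
  have hq0 : 0 < q := by linarith
  set F : ℝ → ℝ≥0∞ := fun s => ENNReal.ofReal (Real.exp (s / p)) * f (Real.exp s) with hF
  set G : ℝ → ℝ≥0∞ := fun t => ENNReal.ofReal (Real.exp (t / q)) * g (Real.exp t) with hG
  have mF : Measurable F :=
    (Real.measurable_exp.comp (measurable_id.div_const p)).ennreal_ofReal.mul
      (hf.comp Real.measurable_exp)
  have mG : Measurable G :=
    (Real.measurable_exp.comp (measurable_id.div_const q)).ennreal_ofReal.mul
      (hg.comp Real.measurable_exp)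
  have hFp : ∫⁻ x in Ioi (0 : ℝ), f x ^ p = ∫⁻ s, F s ^ p := by
    rw [change_var]
    apply lintegral_congr; intro s
    rw [hF]; simp only
    rw [ENNReal.mul_rpow_of_nonneg _ _ hp0.le, ENNReal.ofReal_rpow_of_nonneg (Real.exp_pos _).le hp0.le,
      ← Real.exp_mul, div_mul_cancel₀ _ hp0.ne']
  have hGq : ∫⁻ y in Ioi (0 : ℝ), g y ^ q = ∫⁻ t, G t ^ q := by
    rw [change_var]
    apply lintegral_congr; intro s
    rw [hG]; simp only
    rw [ENNReal.mul_rpow_of_nonneg _ _ hq0.le, ENNReal.ofReal_rpow_of_nonneg (Real.exp_pos _).le hq0.le,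
      ← Real.exp_mul, div_mul_cancel₀ _ hq0.ne']
  have hL : ∫⁻ x in Ioi (0 : ℝ), ∫⁻ y in Ioi (0 : ℝ), f x * g y * ENNReal.ofReal ((x + y) ^ (-(lam p q)))
      = ENNReal.ofReal (KK p q) *
        ∫⁻ s, ∫⁻ t, F s * G t * (ENNReal.ofReal (hh (th p q) (s - t))) ^ (lam p q) := by
    rw [change_var, ← lintegral_const_mul' _ _ ENNReal.ofReal_ne_top]
    apply lintegral_congr; intro s
    rw [change_var, ← lintegral_const_mul' _ _ ENNReal.ofReal_ne_top,
      ← lintegral_const_mul' _ _ ENNReal.ofReal_ne_top]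
    apply lintegral_congr; intro t
    have hk := kernel_eq hp hq hpq s t
    have hhp := hh_pos h0 h1 (s - t)
    have e1 : ENNReal.ofReal (Real.exp s) * ENNReal.ofReal (Real.exp t) *
        ENNReal.ofReal ((Real.exp s + Real.exp t) ^ (-(lam p q)))
        = ENNReal.ofReal (Real.exp (s / p)) * ENNReal.ofReal (Real.exp (t / q)) *
          (ENNReal.ofReal (KK p q) * (ENNReal.ofReal (hh (th p q) (s - t))) ^ (lam p q)) := by
      rw [ENNReal.ofReal_rpow_of_nonneg hhp.le hl.le, ← ENNReal.ofReal_mul hK.le,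
        ← ENNReal.ofReal_mul (Real.exp_pos _).le, ← ENNReal.ofReal_mul (Real.exp_pos _).le,
        ← ENNReal.ofReal_mul (by positivity), ← ENNReal.ofReal_mul (by positivity), hk]
    rw [hF, hG]; simp only
    calc ENNReal.ofReal (Real.exp s) * (ENNReal.ofReal (Real.exp t) * (f (Real.exp s) * g (Real.exp t) *
          ENNReal.ofReal ((Real.exp s + Real.exp t) ^ (-(lam p q)))))
        = f (Real.exp s) * g (Real.exp t) * (ENNReal.ofReal (Real.exp s) * ENNReal.ofReal (Real.exp t) *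
          ENNReal.ofReal ((Real.exp s + Real.exp t) ^ (-(lam p q)))) := by ring
      _ = _ := by rw [e1]; ring
  rw [hL, hFp, hGq, ENNReal.ofReal_mul hK.le, mul_assoc, mul_assoc]
  gcongr
  rw [← mul_assoc]
  exact hκ F G mF mG

theorem lintegral_steps (φ : ℝ → ℝ≥0∞) :
    ∫⁻ x in Ioi (0 : ℝ), φ x = ∑' m : ℕ, ∫⁻ x in Ioc (m : ℝ) (m + 1), φ x := by
  have hU : (⋃ m : ℕ, Ioc (m : ℝ) (m + 1)) = Ioi 0 := by
    ext x
    simp only [mem_iUnion, mem_Ioc, mem_Ioi]
    constructor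
    · rintro ⟨m, h1, h2⟩
      exact lt_of_le_of_lt (Nat.cast_nonneg m) h1
    · intro hx
      refine ⟨⌈x⌉₊ - 1, ?_, ?_⟩
      · have h1 : 0 < ⌈x⌉₊ := Nat.ceil_pos.2 hx
        have h2 := Nat.ceil_lt_add_one hx.le
        rw [Nat.cast_sub (by omega)]
        push_cast
        linarith
      · have h1 : 0 < ⌈x⌉₊ := Nat.ceil_pos.2 hx
        have h2 := Nat.le_ceil x
        rw [Nat.cast_sub (by omega)]
        push_cast
        linarith
  rw [← hU, lintegral_iUnion (fun m => measurableSet_Ioc)]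
  intro m n hmn
  rw [Function.onFun, Set.disjoint_left]
  rintro x ⟨h1, h2⟩ ⟨h3, h4⟩
  apply hmn
  have h5 : (m : ℝ) < n + 1 := by linarith
  have h6 : (n : ℝ) < m + 1 := by linarith
  have h7 : m < n + 1 := by exact_mod_cast h5
  have h8 : n < m + 1 := by exact_mod_cast h6
  omega

theorem ceil_step {m : ℕ} {x : ℝ} (hx : x ∈ Ioc (m : ℝ) (m + 1)) : ⌈x⌉₊ - 1 = m := by
  have h1 : ⌈x⌉₊ = m + 1 := by
    rw [Nat.ceil_eq_iff (by omega)]
    constructor
    · have := hx.1; push_cast; simpa using this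
    · have := hx.2; push_cast; exact this
  omega

theorem both : ∃ C : ℝ, 0 < C ∧ C < KK p q ∧ SeriesIneq p q C ∧ IntegralIneq p q C := by
  obtain ⟨C, hC0, hC1, hC⟩ := integral_ineq hp hq hpq
  have hl := lam_pos hp hq hpq
  refine ⟨C, hC0, hC1, ?_, ?_⟩
  · intro a b
    set f : ℝ → ℝ≥0∞ := fun x => (a (⌈x⌉₊ - 1) : ℝ≥0∞) with hf
    set g : ℝ → ℝ≥0∞ := fun x => (b (⌈x⌉₊ - 1) : ℝ≥0∞) with hg
    have mf : Measurable f := (measurable_from_top (f := fun n : ℕ => (a (n - 1) : ℝ≥0∞))).comp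
      Nat.measurable_ceil
    have mg : Measurable g := (measurable_from_top (f := fun n : ℕ => (b (n - 1) : ℝ≥0∞))).comp
      Nat.measurable_ceil
    have hfp : ∀ (r : ℝ) (c : ℕ → ℝ≥0), ∫⁻ x in Ioi (0 : ℝ), (c (⌈x⌉₊ - 1) : ℝ≥0∞) ^ r
        = ∑' m : ℕ, (c m : ℝ≥0∞) ^ r := by
      intro r c
      rw [lintegral_steps hp hq hpq]
      congr 1
      funext m
      have : ∫⁻ x in Ioc (m : ℝ) (m + 1), (c (⌈x⌉₊ - 1) : ℝ≥0∞) ^ r
          = ∫⁻ _ in Ioc (m : ℝ) (m + 1), (c m : ℝ≥0∞) ^ r := by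
        apply setLIntegral_congr_fun measurableSet_Ioc
        intro x hx
        simp only
        rw [ceil_step hp hq hpq hx]
      rw [this]
      simp
    have h := hC f g mf mg
    rw [hf, hg] at h
    simp only at h
    rw [hfp p a, hfp q b] at h
    refine le_trans ?_ h
    rw [lintegral_steps hp hq hpq]
    apply ENNReal.tsum_le_tsum
    intro m
    have hm : ∀ x ∈ Ioc (m : ℝ) (m + 1), ∑' n : ℕ, (a m : ℝ≥0∞) * (b n : ℝ≥0∞) *
        ENNReal.ofReal ((((m : ℝ) + 1) + ((n : ℝ) + 1)) ^ (-(lam p q))) ≤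
        ∫⁻ y in Ioi (0 : ℝ), (a (⌈x⌉₊ - 1) : ℝ≥0∞) * (b (⌈y⌉₊ - 1) : ℝ≥0∞) *
          ENNReal.ofReal ((x + y) ^ (-(lam p q))) := by
      intro x hx
      rw [lintegral_steps hp hq hpq, ceil_step hp hq hpq hx]
      apply ENNReal.tsum_le_tsum
      intro n
      calc (a m : ℝ≥0∞) * (b n : ℝ≥0∞) *
            ENNReal.ofReal ((((m : ℝ) + 1) + ((n : ℝ) + 1)) ^ (-(lam p q)))
          = ∫⁻ _ in Ioc (n : ℝ) (n + 1), (a m : ℝ≥0∞) * (b n : ℝ≥0∞) *
            ENNReal.ofReal ((((m : ℝ) + 1) + ((n : ℝ) + 1)) ^ (-(lam p q))) := by simp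
        _ ≤ _ := by
            apply setLIntegral_mono' measurableSet_Ioc
            intro y hy
            rw [ceil_step hp hq hpq hy]
            apply mul_le_mul' le_rfl
            apply ENNReal.ofReal_le_ofReal
            have hm0 : (0 : ℝ) ≤ m := Nat.cast_nonneg m
            have hn0 : (0 : ℝ) ≤ n := Nat.cast_nonneg n
            apply Real.rpow_le_rpow_of_nonpos
            · linarith [hx.1, hy.1]
            · linarith [hx.2, hy.2]
            · linarith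
    calc ∑' n : ℕ, (a m : ℝ≥0∞) * (b n : ℝ≥0∞) *
          ENNReal.ofReal ((((m : ℝ) + 1) + ((n : ℝ) + 1)) ^ (-(lam p q)))
        = ∫⁻ _ in Ioc (m : ℝ) (m + 1), ∑' n : ℕ, (a m : ℝ≥0∞) * (b n : ℝ≥0∞) *
          ENNReal.ofReal ((((m : ℝ) + 1) + ((n : ℝ) + 1)) ^ (-(lam p q))) := by simp
      _ ≤ _ := setLIntegral_mono' measurableSet_Ioc hm
  · intro f g hf hg
    exact hC (fun x => f x) (fun x => g x) hf.coe_nnreal_ennreal hg.coe_nnreal_ennreal

end

end Pool.Agent.H797R2.Hilbert
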